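import Mathlib

set_option autoImplicit false

namespace Pool.Agent.Results.MP_b5aa09_co.Perspective

/-- points `(x i, y i)` and non-vertical lines `A j * x + y + C j = 0` -/
structure Scene (V F : Type) where
  x : V → ℝ
  y : V → ℝ
  A : F → ℝ
  C : F → ℝ

def Realises {V F : Type} (s : Scene V F) (I : Finset (V × F)) : Prop :=
  ∀ c ∈ I, s.A c.2 * s.x c.1 + s.y c.1 + s.C c.2 = 0

/-- the linear form, in the variables `z = (u, w, U, W)`, of a distance constraint (left) or of an
incidence (right) -/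
def form {V F : Type} (s : Scene V F) :
    Sym2 V ⊕ (V × F) → ((V → ℝ) × (V → ℝ) × (F → ℝ) × (F → ℝ)) → ℝ
  | Sum.inl e => Sym2.lift ⟨fun i k z =>
      (s.x i - s.x k) * (z.1 i - z.1 k) + (s.y i - s.y k) * (z.2.1 i - z.2.1 k),
      fun i k => by funext z; ring⟩ e
  | Sum.inr c => fun z => s.A c.2 * z.1 c.1 + s.x c.1 * z.2.2.1 c.2 + z.2.1 c.1 + z.2.2.2 c.2

/-- the constraints `E ∪ I` are independent at the scene -/
def IndepAt {V F : Type} (s : Scene V F) (E : Finset (Sym2 V)) (I : Finset (V × F)) : Prop :=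
  LinearIndepOn ℝ (form s) (E.disjSum I)

/-- `|E'| + |I'| ≤ 2|V'| + 2|F'| - 3` for all nonempty subsets of constraints -/
def Count {V F : Type} (E : Finset (Sym2 V)) (I : Finset (V × F)) : Prop :=
  ∀ E' ⊆ E, ∀ I' ⊆ I, E'.Nonempty ∨ I'.Nonempty →
    E'.card + I'.card + 3 ≤ 2 * {v | (∃ e ∈ E', v ∈ e) ∨ ∃ j, (v, j) ∈ I'}.ncard
      + 2 * {j | ∃ v, (v, j) ∈ I'}.ncard

abbrev Z := (Fin 8 → ℝ) × (Fin 8 → ℝ) × (Fin 5 → ℝ) × (Fin 5 → ℝ)

def I₀ : Finset (Fin 8 × Fin 5) :=
  {(1, 0), (2, 0), (3, 0), (4, 0), (1, 1), (5, 1), (6, 1), (7, 1), (0, 2), (0, 3), (0, 4),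
    (2, 2), (3, 3), (4, 4), (5, 2), (6, 3), (7, 4)}

def E₀ : Finset (Sym2 (Fin 8)) := {s(1, 2), s(1, 3), s(1, 4), s(1, 5), s(1, 6), s(1, 7)}

theorem count_aux : ∀ (S : Finset (Fin 8)) (T : Finset (Fin 5)),
    (E₀.filter (fun e => ∀ v, v ∈ e → v ∈ S)).card
      + (I₀.filter (fun c => c.1 ∈ S ∧ c.2 ∈ T)).card = 0 ∨
    (E₀.filter (fun e => ∀ v, v ∈ e → v ∈ S)).card
      + (I₀.filter (fun c => c.1 ∈ S ∧ c.2 ∈ T)).card + 3 ≤ 2 * S.card + 2 * T.card := by
  decide +kernel

theorem count : Count E₀ I₀ := by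
  classical
  intro E' hE I' hI hne
  set S := {v | (∃ e ∈ E', v ∈ e) ∨ ∃ j, (v, j) ∈ I'} with hS
  set T := {j | ∃ v, (v, j) ∈ I'} with hT
  have h := count_aux S.toFinset T.toFinset
  have h1 : E'.card ≤ (E₀.filter (fun e => ∀ v, v ∈ e → v ∈ S.toFinset)).card := by
    refine Finset.card_le_card fun e he => Finset.mem_filter.mpr ⟨hE he, fun v hv => ?_⟩
    rw [Set.mem_toFinset]
    exact Or.inl ⟨e, he, hv⟩
  have h2 : I'.card ≤ (I₀.filter (fun c => c.1 ∈ S.toFinset ∧ c.2 ∈ T.toFinset)).card := by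
    refine Finset.card_le_card fun c hc => Finset.mem_filter.mpr ⟨hI hc, ?_, ?_⟩
    · rw [Set.mem_toFinset]
      exact Or.inr ⟨c.2, hc⟩
    · rw [Set.mem_toFinset]
      exact ⟨c.1, hc⟩
  have h3 : 0 < E'.card + I'.card := by
    rcases hne with h | h
    · have := h.card_pos; omega
    · have := h.card_pos; omega
  rw [Set.ncard_eq_toFinset_card', Set.ncard_eq_toFinset_card']
  omega

theorem form_lin (s : Scene (Fin 8) (Fin 5)) (c : Sym2 (Fin 8) ⊕ (Fin 8 × Fin 5)) :
    IsLinearMap ℝ (form s c) := by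
  rcases c with e | c
  · induction e using Sym2.ind with
    | _ i k =>
      constructor
      · intro a b; simp [form]; ring
      · intro a b; simp [form]; ring
  · constructor
    · intro a b; simp [form]; ring
    · intro a b; simp [form]; ring

theorem dep_of_ker (s : Scene (Fin 8) (Fin 5)) (K : Fin 4 → Z) (hK : LinearIndependent ℝ K)
    (h0 : ∀ c ∈ E₀.disjSum I₀, ∀ k, form s c (K k) = 0) : ¬ IndepAt s E₀ I₀ := by
  intro h
  let S := Submodule.span ℝ (Set.range K)
  let φ : ↥(E₀.disjSum I₀) → S.dualAnnihilator := fun c =>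
    ⟨(form_lin s c).mk' _, by
      rw [Submodule.mem_dualAnnihilator]
      intro w hw
      induction hw using Submodule.span_induction with
      | mem x hx => obtain ⟨k, rfl⟩ := hx; exact h0 c c.2 k
      | zero => exact map_zero _
      | add x y _ _ hx hy => rw [map_add, hx, hy, add_zero]
      | smul a x _ hx => rw [map_smul, hx, smul_zero]⟩
  have hφ : LinearIndependent ℝ φ :=
    LinearIndependent.of_comp ((LinearMap.ltoFun ℝ Z ℝ ℝ).comp S.dualAnnihilator.subtype) h
  have h1 := hφ.fintype_card_le_finrank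
  have h2 := Subspace.finrank_add_finrank_dualAnnihilator_eq S
  have h3 : Module.finrank ℝ S = 4 := by simpa using finrank_span_eq_card hK
  have h4 : Module.finrank ℝ Z = 26 := by simp
  have h5 : (E₀.disjSum I₀).card = 23 := by decide
  simp only [Fintype.card_coe] at h1
  omega

theorem dep_of_vec (s : Scene (Fin 8) (Fin 5)) (hs : Realises s I₀) (z : Z) (hz : z ≠ 0)
    (h1 : z.1 1 = 0) (h2 : z.2.1 1 = 0) (h3 : z.2.2.1 1 = 0)
    (h0 : ∀ c ∈ E₀.disjSum I₀, form s c z = 0) : ¬ IndepAt s E₀ I₀ := by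
  refine dep_of_ker s
    ![(fun _ => 1, fun _ => 0, fun _ => 0, fun j => -s.A j),
      (fun _ => 0, fun _ => 1, fun _ => 0, fun _ => -1),
      (fun i => -s.y i, fun i => s.x i, fun j => -(1 + s.A j ^ 2), fun j => -(s.A j * s.C j)),
      z] ?_ ?_
  · rw [Fintype.linearIndependent_iff]
    intro g hg
    rw [Fin.sum_univ_four] at hg
    have e1 := congrArg (fun z : Z => z.1 1) hg
    have e2 := congrArg (fun z : Z => z.2.1 1) hg
    have e3 := congrArg (fun z : Z => z.2.2.1 1) hg
    simp [h1, h2, h3] at e1 e2 e3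
    have g2 : g 2 = 0 := e3.resolve_right (by nlinarith [sq_nonneg (s.A 1)])
    have g0 : g 0 = 0 := by simpa [g2] using e1
    have g1 : g 1 = 0 := by simpa [g2] using e2
    have g3 : g 3 = 0 := by
      rw [g0, g1, g2] at hg
      simpa [hz] using hg
    intro i
    fin_cases i <;> assumption
  · intro c hc k
    fin_cases k
    · rcases c with e | c
      · induction e using Sym2.ind with
        | _ i k => simp [form]
      · simp [form]
    · rcases c with e | c
      · induction e using Sym2.ind with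
        | _ i k => simp [form]
      · simp [form]
    · rcases c with e | c
      · induction e using Sym2.ind with
        | _ i k => simp [form]; ring
      · have := hs c (by simpa using hc)
        simp [form]
        linear_combination (-s.A c.2) * this
    · exact h0 c hc

theorem dep (s : Scene (Fin 8) (Fin 5)) (hs : Realises s I₀) : ¬ IndepAt s E₀ I₀ := by
  have hs' := hs
  simp only [Realises, I₀, Finset.mem_insert, Finset.mem_singleton, forall_eq_or_imp,
    forall_eq] at hs'
  obtain ⟨r1, r2, r3, r4, r5, r6, r7, r8, r9, r10, r11, r12, r13, r14, r15, r16, r17⟩ := hs'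
  by_cases hφ : ∀ i, s.A 1 * s.x i + s.y i + s.C 1 = 0
  · by_cases hA : ∃ j : Fin 5, 2 ≤ j ∧ s.A j ≠ s.A 1
    · obtain ⟨j, hj, hA⟩ := hA
      refine dep_of_vec s hs (0, 0, Pi.single j 1, Pi.single j (-s.x 0)) ?_ rfl rfl ?_ ?_
      · intro h
        have := congrArg (fun z : Z => z.2.2.1 j) h
        simp at this
      · have : (1 : Fin 5) ≠ j := by rintro rfl; exact absurd hj (by decide)
        simp [this]
      · rintro (e | c) hc
        · induction e using Sym2.ind with
          | _ i k => simp [form]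
        · by_cases hcj : c.2 = j
          · have q1 := hs c (by simpa using hc)
            have q2 := hs (0, j) ((by decide : ∀ j : Fin 5, 2 ≤ j → ((0 : Fin 8), j) ∈ I₀) j hj)
            have q3 := hφ c.1
            have q4 := hφ 0
            rw [hcj] at q1
            have : (s.A j - s.A 1) * (s.x c.1 - s.x 0) = 0 := by
              linear_combination q1 - q2 - q3 + q4
            have := (mul_eq_zero.mp this).resolve_left (sub_ne_zero.mpr hA)
            simp [form, hcj]
            linarith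
          · simp [form, hcj]
    · have a2 : s.A 2 = s.A 1 := by by_contra h; exact hA ⟨2, by decide, h⟩
      have a3 : s.A 3 = s.A 1 := by by_contra h; exact hA ⟨3, by decide, h⟩
      have a4 : s.A 4 = s.A 1 := by by_contra h; exact hA ⟨4, by decide, h⟩
      refine dep_of_vec s hs (Pi.single 0 1, Pi.single 0 (-s.A 1), 0, 0) ?_ (by simp) (by simp)
        rfl ?_
      · intro h
        have := congrArg (fun z : Z => z.1 0) h
        simp at this
      · rintro (e | c) hc
        · simp only [Finset.inl_mem_disjSum, E₀, Finset.mem_insert, Finset.mem_singleton] at hc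
          rcases hc with rfl | rfl | rfl | rfl | rfl | rfl <;> simp [form]
        · simp only [Finset.inr_mem_disjSum, I₀, Finset.mem_insert, Finset.mem_singleton] at hc
          rcases hc with rfl | rfl | rfl | rfl | rfl | rfl | rfl | rfl | rfl | rfl | rfl | rfl |
            rfl | rfl | rfl | rfl | rfl <;> simp [form, a2, a3, a4]
  · refine dep_of_vec s hs (fun i => s.A 0 * (s.A 1 * s.x i + s.y i + s.C 1),
      fun i => s.A 1 * s.x i + s.y i + s.C 1, fun j => -((s.A j * s.A 0 + 1) * (s.A 1 - s.A j)),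
      fun j => -((s.A j * s.A 0 + 1) * (s.C 1 - s.C j))) ?_ (by simp [r5]) r5 (by simp) ?_
    · intro h
      exact hφ fun i => congrArg (fun z : Z => z.2.1 i) h
    · rintro (e | c) hc
      · simp only [Finset.inl_mem_disjSum, E₀, Finset.mem_insert, Finset.mem_singleton] at hc
        rcases hc with rfl | rfl | rfl | rfl | rfl | rfl <;> simp only [form, Sym2.lift_mk]
        · linear_combination (s.A 1 * (s.x 1 - s.x 2) + (s.y 1 - s.y 2)) * (r1 - r2)
        · linear_combination (s.A 1 * (s.x 1 - s.x 3) + (s.y 1 - s.y 3)) * (r1 - r3)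
        · linear_combination (s.A 1 * (s.x 1 - s.x 4) + (s.y 1 - s.y 4)) * (r1 - r4)
        · linear_combination (s.A 0 * (s.x 1 - s.x 5) + (s.y 1 - s.y 5)) * (r5 - r6)
        · linear_combination (s.A 0 * (s.x 1 - s.x 6) + (s.y 1 - s.y 6)) * (r5 - r7)
        · linear_combination (s.A 0 * (s.x 1 - s.x 7) + (s.y 1 - s.y 7)) * (r5 - r8)
      · have := hs c (by simpa using hc)
        simp only [form]
        linear_combination (s.A c.2 * s.A 0 + 1) * this

noncomputable def s₀ : Scene (Fin 8) (Fin 5) where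
  x := ![-1, 0, 1, 3, 5, 1 / 2, 1, 5 / 4]
  y := ![2, 0, 0, 0, 0, 1 / 2, 1, 5 / 4]
  A := ![0, -1, 1, 1 / 2, 1 / 3]
  C := ![0, 0, -1, -3 / 2, -5 / 3]

theorem indep₀ : IndepAt s₀ ∅ I₀ := by
  unfold IndepAt
  rw [linearIndepOn_finset_iff]
  intro g hg
  rw [Finset.sum_disjSum, Finset.sum_empty, zero_add] at hg
  have hu := fun i => congrFun hg (Pi.single i 1, 0, 0, 0)
  have hw := fun i => congrFun hg (0, Pi.single i 1, 0, 0)
  have hW := fun j => congrFun hg (0, 0, 0, Pi.single j 1)
  have u1 := hu 1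
  have u2 := hu 2
  have u3 := hu 3
  have u4 := hu 4
  have u5 := hu 5
  have u6 := hu 6
  have u7 := hu 7
  have w1 := hw 1
  have w2 := hw 2
  have w3 := hw 3
  have w4 := hw 4
  have w5 := hw 5
  have w6 := hw 6
  have w7 := hw 7
  have W2 := hW 2
  have W3 := hW 3
  have W4 := hW 4
  simp [I₀, form, s₀] at u1 u2 u3 u4 u5 u6 u7 w1 w2 w3 w4 w5 w6 w7 W2 W3 W4
  rintro (e | c) hc
  · simp at hc
  · simp only [Finset.inr_mem_disjSum, I₀, Finset.mem_insert, Finset.mem_singleton] at hc
    rcases hc with rfl | rfl | rfl | rfl | rfl | rfl | rfl | rfl | rfl | rfl | rfl | rfl |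
      rfl | rfl | rfl | rfl | rfl <;> linarith

/-- An incidence structure, independent at a scene with distinct points and distinct lines, and
distance constraints satisfying the count, that are dependent at every realising scene. -/
theorem result : ∃ (V F : Type) (_ : Finite V) (_ : Finite F) (I : Finset (V × F))
    (E : Finset (Sym2 V)), (∀ e ∈ E, ¬ e.IsDiag) ∧
    (∃ s : Scene V F, Realises s I ∧ Function.Injective (fun i => (s.x i, s.y i)) ∧
      Function.Injective (fun j => (s.A j, s.C j)) ∧ IndepAt s ∅ I) ∧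
    Count E I ∧ ∀ s : Scene V F, Realises s I → ¬ IndepAt s E I := by
  refine ⟨Fin 8, Fin 5, inferInstance, inferInstance, I₀, E₀, by decide, ⟨s₀, ?_, ?_, ?_, indep₀⟩,
    count, dep⟩
  · simp only [Realises, I₀, Finset.mem_insert, Finset.mem_singleton, forall_eq_or_imp, forall_eq]
    simp [s₀]
    norm_num
  · intro i k h
    fin_cases i <;> fin_cases k <;> simp [s₀] at h ⊢ <;> norm_num at h
  · intro i k h
    fin_cases i <;> fin_cases k <;> simp [s₀] at h ⊢ <;> norm_num at h

end Pool.Agent.Results.MP_b5aa09_co.Perspective
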